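import Pool.Agent.H30.GulC

set_option autoImplicit false

namespace Pool.Agent.Results.MP_e02861_gt.ImageGulko

open Pool.Agent.H30.Gul

theorem result :
    ∀ (X : Type) [TopologicalSpace X] [CompactSpace X] [T2Space X], SplitGulko X →
      ∀ (Z : Type) [TopologicalSpace Z] [T2Space Z] (g : X → Z),
        Continuous g → Function.Surjective g → SplitGulko Z := by
  intro X _ _ _ h Z _ _ g hg hs B
  have h2 : CompactSpace Z := ⟨by rw [← hs.range_eq]; exact isCompact_range hg⟩
  exact ⟨Z, inferInstance, (h.qq.image hg hs).gulko, id, continuous_id, by simp⟩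

end Pool.Agent.Results.MP_e02861_gt.ImageGulko
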